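import Pool.Agent.Helper71.E5.WStmts2
import Pool.Agent.Helper36.E5.LG
import Pool.Agent.Helper82.EF.X1

/-! MP_efd95c_co, wheels: row NKA (no two adjacent kinks). -/

set_option autoImplicit false

open scoped MeasureTheory ENNReal
open Complex

namespace E5

/-- the sum of the half arcs to two fixed points is convex -/
theorem nka_conv (u w : ℂ) (L : ℝ) : Convex ℝ {z : ℂ | dist u z ≤ 2 ∧ dist z w ≤ 2 ∧
    lg u z + lg z w ≤ L} := by
  have key : ∀ v x y : ℂ, dist v x ≤ 2 → dist v y ≤ 2 → ∀ s t : ℝ, 0 ≤ s → 0 ≤ t → s + t = 1 →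
      dist v (s • x + t • y) ≤ s * dist v x + t * dist v y ∧
      lg v (s • x + t • y) ≤ s * lg v x + t * lg v y := by
    intro v x y hx hy s t hs ht hst
    have h1 : dist v (s • x + t • y) ≤ s * dist v x + t * dist v y := by
      have e1 : v - (s • x + t • y) = s • (v - x) + t • (v - y) := by
        have : v = s • v + t • v := by rw [← add_smul, hst, one_smul]
        conv_lhs => rw [this]
        rw [smul_sub, smul_sub]
        abel
      rw [dist_eq_norm, e1, dist_eq_norm, dist_eq_norm]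
      refine (norm_add_le _ _).trans ?_
      rw [norm_smul, norm_smul, Real.norm_of_nonneg hs, Real.norm_of_nonneg ht]
    refine ⟨h1, ?_⟩
    rw [lg_eq, lg_eq, lg_eq]
    have h2 : Real.arcsin (dist v (s • x + t • y) / 2) ≤
        Real.arcsin (s * (dist v x / 2) + t * (dist v y / 2)) := by
      apply Real.monotone_arcsin
      linarith
    have h3 := H82EF.arcsin_convex.2 (x := dist v x / 2) (y := dist v y / 2)
      ⟨by positivity, by linarith⟩ ⟨by positivity, by linarith⟩ hs ht hst
    simp only [smul_eq_mul] at h3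
    linarith
  rintro x ⟨hx1, hx2, hx3⟩ y ⟨hy1, hy2, hy3⟩ s t hs ht hst
  obtain ⟨a1, a2⟩ := key u x y hx1 hy1 s t hs ht hst
  obtain ⟨b1, b2⟩ := key w x y (by rw [dist_comm]; exact hx2) (by rw [dist_comm]; exact hy2)
    s t hs ht hst
  refine ⟨?_, ?_, ?_⟩
  · calc dist u (s • x + t • y) ≤ s * dist u x + t * dist u y := a1
      _ ≤ s * 2 + t * 2 := by
        exact add_le_add (mul_le_mul_of_nonneg_left hx1 hs) (mul_le_mul_of_nonneg_left hy1 ht)
      _ = 2 := by rw [← add_mul, hst, one_mul]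
  · rw [dist_comm]
    calc dist w (s • x + t • y) ≤ s * dist w x + t * dist w y := b1
      _ ≤ s * 2 + t * 2 := by
        refine add_le_add (mul_le_mul_of_nonneg_left ?_ hs) (mul_le_mul_of_nonneg_left ?_ ht)
        · rw [dist_comm]; exact hx2
        · rw [dist_comm]; exact hy2
      _ = 2 := by rw [← add_mul, hst, one_mul]
  · rw [lg_comm _ w]
    have c1 : s * (lg u x + lg x w) + t * (lg u y + lg y w) ≤ s * L + t * L :=
      add_le_add (mul_le_mul_of_nonneg_left hx3 hs) (mul_le_mul_of_nonneg_left hy3 ht)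
    have c2 : s * L + t * L = L := by rw [← add_mul, hst, one_mul]
    rw [lg_comm x w, lg_comm y w] at c1
    linarith

theorem NKA (hFLAT : ST_FLAT) (hH : ST_HTEST) (hGAP : ST_GAP) (hD2 : ST_D2) : ST_NKA := by
  intro p q gp ap bp gq aq bq o hmax hp hq hfull ho k
  by_contra hcon
  rw [not_or, not_lt, not_lt] at hcon
  have k0 : ap k = bp k := le_antisymm (hp.le k) hcon.1
  have k1 : ap (k + 1) = bp (k + 1) := le_antisymm (hp.le (k + 1)) hcon.2
  have hG := hGAP 5 p 4 gp ap bp hp
  have g1 := hG (k - 1) (k + 2) (by omega) (by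
    intro j h1 h2
    have : j = k ∨ j = k + 1 := by omega
    rcases this with rfl | rfl
    · exact k0
    · exact k1)
  have g2 := hG (k - 1) k (by omega) (by intro j h1 h2; omega)
  have g3 := hG (k - 1) (k + 1) (by omega) (by
    intro j h1 h2
    have : j = k := by omega
    rw [this]; exact k0)
  have g4 := hG k (k + 2) (by omega) (by
    intro j h1 h2
    have : j = k + 1 := by omega
    rw [this]; exact k1)
  have g5 := hG (k + 1) (k + 2) (by omega) (by intro j h1 h2; omega)
  have hD := hD2 5 p hp.int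
  have hf := hFLAT 5 p q 4 gp ap bp gq aq bq hmax hp hq hfull o
  have hz : p o ∈ {z : ℂ | dist (p (gp (k - 1))) z ≤ 2 ∧ dist z (p (gp (k + 2))) ≤ 2 ∧
      lg (p (gp (k - 1))) z + lg z (p (gp (k + 2))) ≤
        lg (p (gp (k - 1))) (p (gp (k + 2)))} := by
    refine convexHull_min ?_ (nka_conv _ _ _) hf
    rintro x ⟨j, rfl⟩
    refine ⟨(hD _ _).le, (hD _ _).le, ?_⟩
    show lg (p (gp (k - 1))) (p (gp j)) + lg (p (gp j)) (p (gp (k + 2))) ≤ _
    obtain ⟨t, ht⟩ : ∃ t : ℤ, k - 1 ≤ j + t * 4 ∧ j + t * 4 ≤ k + 2 := by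
      refine ⟨-((j - (k - 1)) / 4), ?_, ?_⟩ <;> omega
    have hgt : gp (j + t * 4) = gp j := by
      have hper : Function.Periodic gp (4 : ℤ) := fun x => hp.gper x
      exact (hper.int_mul t) j
    rw [← hgt]
    have hself : ∀ v : ℂ, lg v v = 0 := by
      intro v
      rw [lg_eq]
      simp
    have hc : j + t * 4 = k - 1 ∨ j + t * 4 = k ∨ j + t * 4 = k + 1 ∨ j + t * 4 = k + 2 := by
      omega
    rcases hc with h | h | h | h
    · rw [h, hself, zero_add]
    · rw [h, g2.2.1, g4.2.1, g1.2.1]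
      linarith
    · rw [h, g3.2.1, g5.2.1, g1.2.1]
      linarith
    · rw [h, hself, add_zero]
  have h1 := hH 5 p q 4 gp ap bp gq aq bq o hmax hp hq hfull rfl ho (k + 2)
  have h2 : gp (k + 2 + 1) = gp (k - 1) := by
    have := hp.gper (k - 1)
    rw [← this]
    congr 1
    push_cast
    ring
  rw [h2] at h1
  have h3 := hz.2.2
  rw [lg_comm (p (gp (k + 2))) (p (gp (k - 1))), lg_comm (p (gp (k + 2))) (p o),
    lg_comm (p o) (p (gp (k - 1)))] at h1
  linarith

end E5
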